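import Mathlib
import Pool.Agent.TH488.HWG.ExtB

set_option autoImplicit false

/-!
Rigid maximal Cohen–Macaulay modules over localizations of iterated monogenic extensions of
Dedekind domains.
-/

namespace Pool.Agent.Results.MP_34725c_ag.MonogenicTowers

universe u

/-- `B = A[x] ≅ A[X]/(p)` for some `x` in `T` and some monic `p` over `A`. -/
def MonogenicStep (T : Type u) [CommRing T] (A B : Subring T) : Prop :=
  ∃ (x : T) (p : Polynomial A), p.Monic ∧
    (∀ b : T, b ∈ B ↔ ∃ q : Polynomial A, Polynomial.aeval x q = b) ∧
    (∀ q : Polynomial A, Polynomial.aeval x q = 0 ↔ p ∣ q)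

/-- `T` is an iterated monogenic extension of its subring `V`: there is a finite chain
`V = A₀ ⊆ A₁ ⊆ ... ⊆ A_c = T` of subrings with `A_i = A_{i-1}[x_i] ≅ A_{i-1}[X]/(p_i)`,
`p_i` monic. -/
def IsMonogenicTower (T : Type u) [CommRing T] (V : Subring T) : Prop :=
  Relation.ReflTransGen (MonogenicStep T) V ⊤

/-- Let the domain `T` be an iterated monogenic extension of a Dedekind domain `V` and let the local
ring `R` be the localization of `T` at a prime ideal. If `M` is a finitely generated torsion-free
`R`-module all of whose self-extensions split, then `M` is free. -/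
theorem result (T : Type u) [CommRing T] [IsDomain T] (V : Subring T) [IsDedekindDomain V]
    (hV : IsMonogenicTower T V) (P : Ideal T) [P.IsPrime]
    (R : Type u) [CommRing R] [IsDomain R] [IsLocalRing R] [Algebra T R]
    [IsLocalization.AtPrime R P]
    (M : Type u) [AddCommGroup M] [Module R M] [Module.Finite R M]
    (hM : NoZeroSMulDivisors R M)
    (hExt : ∀ (E : Type u) [AddCommGroup E] [Module R E] (f : M →ₗ[R] E) (g : E →ₗ[R] M),
      Function.Injective f → Function.Surjective g → Function.Exact f g →
      ∃ s : M →ₗ[R] E, g.comp s = LinearMap.id) :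
    Module.Free R M := by
  have hproj : Module.Projective R M :=
    Pool.Agent.TH488.HWG.ext_loc (T := T) (V := V) hV P.primeCompl
      P.primeCompl_le_nonZeroDivisors R M
      (fun r m h => hM.eq_zero_or_eq_zero_of_smul_eq_zero h) hExt
  exact Module.free_of_flat_of_isLocalRing

end Pool.Agent.Results.MP_34725c_ag.MonogenicTowers
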